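import Pool.Agent.Lib.MP_e6ac2b_gt.ConstC

set_option autoImplicit false

open Pool.Agent.Lib.MP_e6ac2b_gt

/-- There is a regular (and `T₁`) separable quasitopological group that is not completely regular;
it is Boolean, has more than one point, and every continuous real function on it is constant. -/
theorem Pool.Agent.Results.MP_e6ac2b_gt.ConstantFunctions.result :
    ∃ (G : Type) (_ : Group G) (_ : TopologicalSpace G),
      (∀ a : G, Continuous fun x : G => a * x) ∧ (∀ a : G, Continuous fun x : G => x * a) ∧
      (Continuous fun x : G => x⁻¹) ∧ T1Space G ∧ RegularSpace G ∧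
      TopologicalSpace.SeparableSpace G ∧ ¬ CompletelyRegularSpace G ∧ Nontrivial G ∧
      (∀ x : G, x * x = 1) ∧ ∀ f : G → ℝ, Continuous f → ∀ x y : G, f x = f y := by
  obtain ⟨t, h1, h2, h3, h4, h5⟩ := Const.main
  have h6 : Nontrivial Const.G := inferInstance
  have h0 : ∀ x : Multiplicative Const.G, x * x = 1 := fun x => Const.G_add_self x.toAdd
  refine ⟨Multiplicative Const.G, inferInstance, t, fun a => h1 a.toAdd, fun a => ?_, ?_,
    h2, h3, h4, fun h => ?_, h6, h0, h5⟩
  · have : (fun x : Multiplicative Const.G => x * a) = fun x => a * x := by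
      funext x
      exact mul_comm x a
    rw [this]
    exact h1 a.toAdd
  · have : (fun x : Multiplicative Const.G => x⁻¹) = id := by
      funext x
      exact inv_eq_of_mul_eq_one_right (G := Multiplicative Const.G) (h0 x)
    rw [this]
    exact continuous_id
  · have h7 : CompletelyRegularSpace Const.G := h
    obtain ⟨x, y, hxy⟩ := h6.exists_pair_ne
    obtain ⟨F, hF, hF0, hF1⟩ := h7.completely_regular x {y} isClosed_singleton hxy
    have := h5 (fun z => (F z : ℝ)) (continuous_subtype_val.comp hF) x y
    rw [hF0, hF1 rfl] at this
    simp at this
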